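import Pool.Agent.KDS.StmtsA
import Pool.Agent.Helper24_KDT.LVB
import Pool.Agent.Helper7_SZT.NRM

/-!
# KDS, row DVB: the functional equation of the local height for the duplication
-/

set_option autoImplicit false

namespace Pool.Agent.KDS.H5

open Polynomial H58Q Pool.Agent.SZT Pool.Agent.KDT Pool.Agent.KDT.H24

section formal

variable {K : Type} [Field K]

/-- multiplicativity of the resultant with formal degrees -/
theorem res_mul_formal {P h h' : K[X]} {m n n' : ℕ} (hm : P.natDegree ≤ m)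
    (hn : h.natDegree ≤ n) (hn' : h'.natDegree ≤ n') :
    resultant P (h * h') m (n + n') = resultant P h m n * resultant P h' m n' := by
  obtain ⟨k, rfl⟩ := Nat.exists_eq_add_of_le hn
  obtain ⟨k', rfl⟩ := Nat.exists_eq_add_of_le hn'
  have h1 : h.natDegree + k + (h'.natDegree + k') =
      (h.natDegree + h'.natDegree) + (k + k') := by ring
  rw [h1, resultant_add_right_deg _ _ _ _ (k + k') natDegree_mul_le,
    resultant_mul_right P h h' m hm, resultant_add_right_deg _ _ _ _ k le_rfl,
    resultant_add_right_deg _ _ _ _ k' le_rfl, pow_add]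
  ring

theorem res_pow_formal {P h : K[X]} {m n : ℕ} (hm : P.natDegree ≤ m)
    (hn : h.natDegree ≤ n) (k : ℕ) :
    resultant P (h ^ k) m (k * n) = resultant P h m n ^ k := by
  induction k with
  | zero =>
    rw [pow_zero, pow_zero, zero_mul]
    simp
  | succ k ih =>
    have h1 : (h ^ k).natDegree ≤ k * n := by
      rw [natDegree_pow]
      exact Nat.mul_le_mul_left k hn
    rw [pow_succ, pow_succ, Nat.succ_mul, res_mul_formal hm h1 hn, ih]

theorem v_comm_formal (v : AbsoluteValue K ℝ) (P h : K[X]) (m n : ℕ) :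
    v (resultant P h m n) = v (resultant h P n m) := by
  rw [resultant_comm, map_mul, v_neg_one_pow, one_mul]

end formal

section key

variable {K : Type} [Field K]

theorem keyD {f A B A' V U W : K[X]} {m : K} {M : ℕ} (hf5 : f.natDegree = 5)
    (hA : A.Monic) (hA2 : A.natDegree = 2) (hA' : A'.Monic) (hA'2 : A'.natDegree = 2)
    (hdB : A ∣ V - B) (hV : V.natDegree ≤ 3)
    (hV2 : V ^ 2 - f = C (m ^ 2) * (A ^ 2 * A'))
    (hp : U ^ 2 - f * W ^ 2 = A ^ M) (hc : IsCoprime A U)
    (hUW : A ∣ U + W * B) (v : AbsoluteValue K ℝ) :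
    v (resultant A (2 * B)) ^ M =
      v m ^ (2 * M) * v (resultant A (2 * U)) ^ 2 * v (resultant A' (U - V * W)) := by
  have hAW : IsCoprime A W := coprime_of hc hUW
  have hW : W ≠ 0 := by
    rintro rfl
    rw [isCoprime_zero_right] at hAW
    have := natDegree_eq_zero_of_isUnit hAW
    omega
  obtain ⟨d1, d2, -⟩ := degs hf5 hA hA2 hp hW
  obtain ⟨k, hk⟩ : ∃ k, M = k + 3 := ⟨M - 3, by omega⟩
  have hWk : W.natDegree ≤ k := by omega
  obtain ⟨g, hg⟩ : ∃ g, g = U - V * W := ⟨_, rfl⟩
  have hVW : (V * W).natDegree ≤ M := by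
    have := natDegree_mul_le (p := V) (q := W)
    omega
  have g1 : g.natDegree ≤ M := by
    rw [hg]
    exact (natDegree_sub_le _ _).trans (max_le d2.le hVW)
  have g1' : (U + V * W).natDegree ≤ M :=
    (natDegree_add_le _ _).trans (max_le d2.le hVW)
  obtain ⟨F, hF⟩ : ∃ F, F = f - V ^ 2 := ⟨_, rfl⟩
  have hFe : F = C (-(m ^ 2)) * (A * A * A') := by
    rw [hF, C_neg]
    have h1 : f - V ^ 2 = -(V ^ 2 - f) := by ring
    rw [h1, hV2]
    ring
  have hF6 : F.natDegree ≤ 6 := by
    rw [hF]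
    refine (natDegree_sub_le _ _).trans (max_le (by omega) ?_)
    rw [natDegree_pow]
    omega
  have hA2' : A.natDegree ≤ 2 := hA2.le
  -- S1
  have s1 : resultant g A M 2 ^ M = (-1) ^ M * (resultant g F M 6 * resultant g W M k ^ 2) := by
    rw [← res_pow_formal g1 hA2' M]
    have h3 : A ^ M = C (-1) * (F * W ^ 2) + g * (U + V * W) := by
      rw [← hp, hF, hg, C_neg, C_1]
      ring
    rw [h3, resultant_add_mul_right _ _ _ _ _ (by omega) g1, resultant_C_mul_right]
    have h4 : M * 2 = 6 + 2 * k := by omega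
    have h5 : (W ^ 2).natDegree ≤ 2 * k := by
      rw [natDegree_pow]
      omega
    rw [h4, res_mul_formal g1 hF6 h5, res_pow_formal g1 hWk 2]
  have s1' : v (resultant g A M 2) ^ M =
      v (resultant g F M 6) * v (resultant g W M k) ^ 2 := by
    have h3 := congrArg v s1
    rw [map_pow, map_mul, v_neg_one_pow, one_mul, map_mul, map_pow] at h3
    exact h3
  -- S2
  have s2 : v (resultant g A M 2) = v (resultant A (2 * U)) := by
    rw [v_comm_formal]
    have h1 : resultant A g 2 M = resultant A g := by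
      have h2 := res_deg hA g1
      rw [hA2] at h2
      rw [h2, hA2]
    rw [h1]
    congr 1
    refine res_congr hA ?_
    have h3 : g - 2 * U = -(U + W * B) - W * (V - B) := by
      rw [hg]
      ring
    rw [h3]
    exact dvd_sub (hUW.neg_right) (dvd_mul_of_dvd_right hdB _)
  -- S3
  have s3 : v (resultant g W M k) ^ 2 = v (resultant A W) ^ M := by
    obtain ⟨p, hpp⟩ : ∃ p, p = f * W - 2 * U * V + V ^ 2 * W := ⟨_, rfl⟩
    have h4 : g * g = A ^ M + W * p := by
      rw [hg, ← hp, hpp]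
      ring
    have h6 : p.natDegree ≤ M + 3 := by
      rw [hpp]
      refine (natDegree_add_le _ _).trans (max_le ((natDegree_sub_le _ _).trans
        (max_le ?_ ?_)) ?_)
      · have := natDegree_mul_le (p := f) (q := W)
        omega
      · have h7 := natDegree_mul_le (p := 2 * U) (q := V)
        have h8 := natDegree_mul_le (p := (2 : K[X])) (q := U)
        have h9 : (2 : K[X]).natDegree = 0 := natDegree_ofNat 2
        omega
      · have h7 := natDegree_mul_le (p := V ^ 2) (q := W)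
        have h8 : (V ^ 2).natDegree = 2 * V.natDegree := natDegree_pow _ _
        omega
    have h7 : resultant W g k M * resultant W g k M = resultant W A k 2 ^ M := by
      rw [← res_mul_formal hWk g1 g1, h4, resultant_add_mul_right _ _ _ _ _ (by omega) hWk,
        ← res_pow_formal hWk hA2' M]
      congr 1
      ring
    have h8 : resultant A W 2 k = resultant A W := by
      have h2 := res_deg hA hWk
      rw [hA2] at h2
      rw [h2, hA2]
    have h9 := congrArg v h7
    rw [map_mul, map_pow, v_comm_formal v W A, h8] at h9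
    rw [v_comm_formal v g W, sq, h9]
  -- S4
  have s4 : v (resultant g F M 6) =
      v m ^ (2 * M) * v (resultant A (2 * U)) ^ 2 * v (resultant A' g) := by
    rw [v_comm_formal, hFe, resultant_C_mul_left, map_mul, map_pow]
    have h1 : (A * A * A').Monic := (hA.mul hA).mul hA'
    have h2 : (A * A * A').natDegree = 6 := by
      rw [(hA.mul hA).natDegree_mul hA', hA.natDegree_mul hA]
      omega
    have h3 : resultant (A * A * A') g 6 M = resultant (A * A * A') g := by
      have h4 := res_deg h1 g1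
      rw [h2] at h4
      rw [h4, h2]
    have h5 : resultant A g = resultant A (2 * U) := by
      refine res_congr hA ?_
      have h3 : g - 2 * U = -(U + W * B) - W * (V - B) := by
        rw [hg]
        ring
      rw [h3]
      exact dvd_sub (hUW.neg_right) (dvd_mul_of_dvd_right hdB _)
    rw [h3, res_mul_left (hA.mul hA) hA', res_mul_left hA hA, h5, map_mul, map_mul, v.map_neg,
      map_pow, ← pow_mul]
    ring
  have s6 : v (resultant A (2 * U)) = v (resultant A (2 * B)) * v (resultant A W) := by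
    have h3 : resultant A (2 * U) = resultant A (C (-1) * (2 * B * W)) := by
      refine res_congr hA ?_
      have h4 : 2 * U - C (-1) * (2 * B * W) = 2 * (U + W * B) := by
        rw [C_neg, C_1]
        ring
      rw [h4]
      exact dvd_mul_of_dvd_right hUW _
    rw [h3, v_C_mul v hA (by rw [AbsoluteValue.map_neg, map_one]), res_mul hA, map_mul]
  have hr : 0 < v (resultant A W) := v.pos (resultant_ne_zero A W hAW)
  rw [s2, s4, s3] at s1'
  have s7 : v (resultant A (2 * U)) ^ M =
      v (resultant A (2 * B)) ^ M * v (resultant A W) ^ M := by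
    rw [s6, mul_pow]
  rw [s7] at s1'
  rw [← hg]
  exact mul_right_cancel₀ (pow_ne_zero M hr.ne') s1'

/-- elements of constant square norm are constants -/
theorem norm_const {f r s : K[X]} (hf5 : f.natDegree = 5) {c : K}
    (h : r ^ 2 - f * s ^ 2 = C c) : s = 0 ∧ ∃ d : K, r = C d ∧ d ^ 2 = c := by
  have hf0 : f ≠ 0 := by
    rintro rfl
    simp at hf5
  have hs : s = 0 := by
    by_contra hs
    have e1 : (f * s ^ 2).natDegree = 5 + 2 * s.natDegree := by
      rw [natDegree_mul hf0 (pow_ne_zero _ hs), natDegree_pow, hf5]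
    have e2 : r ^ 2 = C c + f * s ^ 2 := by
      rw [← h]
      ring
    have e3 : (r ^ 2).natDegree = 2 * r.natDegree := natDegree_pow _ _
    have e4 : (C c : K[X]).natDegree < (f * s ^ 2).natDegree := by
      rw [natDegree_C, e1]
      omega
    have e5 := natDegree_add_eq_right_of_natDegree_lt e4
    rw [← e2] at e5
    omega
  refine ⟨hs, ?_⟩
  rw [hs] at h
  have h1 : r ^ 2 = C c := by
    rw [← h]
    ring
  have h2 : r.natDegree = 0 := by
    have h3 := congrArg natDegree h1
    rw [natDegree_pow, natDegree_C] at h3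
    omega
  obtain ⟨d, hd⟩ := natDegree_eq_zero.1 h2
  refine ⟨d, hd.symm, ?_⟩
  rw [← hd, ← C_pow] at h1
  exact C_injective h1

/-- the norm -/
noncomputable def nm {f : K[X]} (u : Q K f) : K[X] := u.re ^ 2 - f * u.im ^ 2

theorem nm_mul {f : K[X]} (u w : Q K f) : nm (u * w) = nm u * nm w := by
  unfold nm
  rw [QuadraticAlgebra.re_mul, QuadraticAlgebra.im_mul]
  ring

theorem nm_pow {f : K[X]} (u : Q K f) (n : ℕ) : nm (u ^ n) = nm u ^ n := by
  induction n with
  | zero =>
    unfold nm
    rw [pow_zero, pow_zero, QuadraticAlgebra.re_one, QuadraticAlgebra.im_one]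
    ring
  | succ n ih => rw [pow_succ, nm_mul, ih, pow_succ]

theorem relation {f A B A' B' V U W U' W' : K[X]} {m : K} {M : ℕ} (hf5 : f.natDegree = 5)
    (hA : A.Monic) (hA' : A'.Monic)
    (hV2 : V ^ 2 - f = C (m ^ 2) * (A ^ 2 * A'))
    (hrel : MI f A B ^ 2 * MI f A' (-B') = Ideal.span {(⟨-V, 1⟩ : Q K f)})
    (hgen : Gen f A B U W M) (hgen' : Gen f A' B' U' W' M) :
    ∃ c : K, c ^ 2 = (m ^ 2) ^ M ∧
      (⟨-V, 1⟩ : Q K f) ^ M = (⟨U, W⟩ : Q K f) ^ 2 * ⟨U', -W'⟩ * ⟨C c, 0⟩ := by
  have h1 : MI f A' (-B') ^ M = Ideal.span {(⟨U', -W'⟩ : Q K f)} := by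
    rw [← Pool.Agent.SZT.H7.map_MI, ← Ideal.map_pow, hgen'.gen, Ideal.map_span,
      Set.image_singleton, Pool.Agent.SZT.H7.cj_mk]
  have h2 : Ideal.span {(⟨-V, 1⟩ : Q K f) ^ M} =
      Ideal.span {(⟨U, W⟩ : Q K f) ^ 2 * ⟨U', -W'⟩} := by
    rw [← Ideal.span_singleton_pow, ← hrel, mul_pow, ← pow_mul, mul_comm 2 M, pow_mul,
      hgen.gen, h1, Ideal.span_singleton_pow, Ideal.span_singleton_mul_span_singleton]
  obtain ⟨w, hw⟩ := Ideal.span_singleton_le_span_singleton.1 h2.le
  have h3 := congrArg nm hw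
  rw [nm_pow, nm_mul, nm_mul, nm_pow] at h3
  have e1 : nm (⟨-V, 1⟩ : Q K f) = C (m ^ 2) * (A ^ 2 * A') := by
    rw [← hV2]
    unfold nm
    ring
  have e2 : nm (⟨U, W⟩ : Q K f) = A ^ M := hgen.pell
  have e3 : nm (⟨U', -W'⟩ : Q K f) = A' ^ M := by
    rw [← hgen'.pell]
    unfold nm
    ring
  rw [e1, e2, e3] at h3
  have h4 : (A ^ M) ^ 2 * A' ^ M * nm w = (A ^ M) ^ 2 * A' ^ M * C ((m ^ 2) ^ M) := by
    rw [← h3]
    simp only [C_pow]
    ring
  have h5 : (A ^ M) ^ 2 * A' ^ M ≠ 0 :=
    mul_ne_zero (pow_ne_zero _ (pow_ne_zero _ hA.ne_zero)) (pow_ne_zero _ hA'.ne_zero)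
  have h6 := mul_left_cancel₀ h5 h4
  obtain ⟨h7, c, hc, hc2⟩ := norm_const hf5 h6
  refine ⟨c, hc2, ?_⟩
  have h8 : w = (⟨C c, 0⟩ : Q K f) := by
    ext1
    · exact hc
    · exact h7
  rw [hw, h8]

theorem phq {f P V : K[X]} (hP : P ∣ f - V ^ 2) (u w : Q K f) :
    Ideal.Quotient.mk (Ideal.span {P}) (ph (-V) (u * w)) =
      Ideal.Quotient.mk (Ideal.span {P}) (ph (-V) u) *
        Ideal.Quotient.mk (Ideal.span {P}) (ph (-V) w) := by
  rw [← map_mul, Ideal.Quotient.eq, Ideal.mem_span_singleton]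
  have h1 := ph_mul (-V) u w
  rw [neg_sq] at h1
  exact hP.trans h1

theorem phq_pow {f P V : K[X]} (hP : P ∣ f - V ^ 2) (u : Q K f) (n : ℕ) :
    Ideal.Quotient.mk (Ideal.span {P}) (ph (-V) (u ^ n)) =
      Ideal.Quotient.mk (Ideal.span {P}) (ph (-V) u) ^ n := by
  rw [← map_pow, Ideal.Quotient.eq, Ideal.mem_span_singleton]
  have h1 := ph_pow (-V) u n
  rw [neg_sq] at h1
  exact hP.trans h1

end key

/-- row DVB -/
theorem dvb (hMik : SZT.MikStatement) : DvbStatement := by
  intro K _ f A B A' B' V U W U' W' m M h2 hf hf5 hsf hG hG' hD hrel hgen hgen' v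
  have hA : A.Monic := hG.monic
  have hA' : A'.Monic := hG'.monic
  have hM := hgen.pos
  have hM0 : M ≠ 0 := hM.ne'
  have mem : ∀ {A B U W : K[X]}, A ∣ B ^ 2 - f → Gen f A B U W M → A ∣ U + W * B := by
    intro A B U W hd hg
    refine (hMik K f A B U W hd).1 ?_
    have h3 : (⟨U, W⟩ : Q K f) ∈ MI f A B ^ M := by
      rw [hg.gen]
      exact Ideal.mem_span_singleton_self _
    exact Ideal.pow_le_self hg.pos.ne' h3
  have hUW := mem hG.dvd hgen
  have hUW' := mem hG'.dvd hgen'
  have hd := keyD hf5 hA hG.two hA' hG'.two hD.dvd hD.degV hD.eq hgen.pell hgen.cop hUW v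
  obtain ⟨c, hc, hrel'⟩ := relation hf5 hA hA' hD.eq hrel hgen hgen'
  -- (a)
  have a1 : resultant A (4 * f) = resultant A (2 * B) ^ 2 := by
    rw [← res_pow hA]
    refine res_congr hA ?_
    have h3 : 4 * f - (2 * B) ^ 2 = -(4 * (B ^ 2 - f)) := by ring
    rw [h3]
    exact (dvd_mul_of_dvd_right hG.dvd _).neg_right
  have hA'F : A' ∣ f - V ^ 2 := by
    have h3 : f - V ^ 2 = -(C (m ^ 2) * (A ^ 2 * A')) := by
      rw [← hD.eq]
      ring
    rw [h3]
    exact (dvd_mul_of_dvd_right (dvd_mul_left _ _) _).neg_right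
  have a2 : resultant A' (4 * f) = resultant A' (2 * V) ^ 2 := by
    rw [← res_pow hA']
    refine res_congr hA' ?_
    have h3 : 4 * f - (2 * V) ^ 2 = 4 * (f - V ^ 2) := by ring
    rw [h3]
    exact dvd_mul_of_dvd_right hA'F _
  have h4C : (4 : K[X]) = C 4 := (map_ofNat C 4).symm
  have h4K : (4 : K) ≠ 0 := by
    have : (4 : K) = 2 * 2 := by norm_num
    rw [this]
    exact mul_ne_zero h2 h2
  have n4 : ∀ {P : K[X]}, IsCoprime P f → resultant P (4 * f) ≠ 0 := by
    intro P hP
    refine resultant_ne_zero _ _ ?_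
    rw [h4C]
    exact (isCoprime_mul_unit_left_right (isUnit_C.2 (isUnit_iff_ne_zero.2 h4K)) _ _).2 hP
  have n1 : v (resultant A (2 * B)) ≠ 0 := by
    rw [v.ne_zero_iff]
    intro h0
    refine n4 hG.cop ?_
    rw [a1, h0]
    ring
  have n2 : v (resultant A' (2 * V)) ≠ 0 := by
    rw [v.ne_zero_iff]
    intro h0
    refine n4 hG'.cop ?_
    rw [a2, h0]
    ring
  have nm0 : v m ≠ 0 := v.ne_zero_iff.2 hD.mne
  have hvc : v c ^ 2 = v m ^ (2 * M) := by
    rw [← map_pow, hc, map_pow, map_pow, ← pow_mul]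
  -- (b)
  have b1 : v (resultant A' (2 * V)) ^ M =
      v m ^ (2 * M) * v (resultant A' (U - V * W)) ^ 2 * v (resultant A' (2 * U')) := by
    have h3 : resultant A' ((C (-1) * (2 * V)) ^ M) =
        resultant A' ((U - V * W) ^ 2 * (2 * U') * C c) := by
      refine res_congr hA' ?_
      rw [← Ideal.mem_span_singleton, ← Ideal.Quotient.eq]
      have h4 : Ideal.Quotient.mk (Ideal.span {A'}) (ph (-V) ((⟨-V, 1⟩ : Q K f) ^ M)) =
          Ideal.Quotient.mk (Ideal.span {A'}) (ph (-V)
            ((⟨U, W⟩ : Q K f) ^ 2 * ⟨U', -W'⟩ * ⟨C c, 0⟩)) :=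
        congrArg (fun t => Ideal.Quotient.mk (Ideal.span {A'}) (ph (-V) t)) hrel'
      rw [phq_pow hA'F, phq hA'F, phq hA'F, phq_pow hA'F] at h4
      have e1 : ph (-V) (⟨-V, 1⟩ : Q K f) = C (-1) * (2 * V) := by
        unfold ph
        rw [C_neg, C_1]
        ring
      have e2 : ph (-V) (⟨U, W⟩ : Q K f) = U - V * W := by
        unfold ph
        ring
      have e3 : ph (-V) (⟨C c, 0⟩ : Q K f) = C c := by
        unfold ph
        ring
      have e4 : Ideal.Quotient.mk (Ideal.span {A'}) (ph (-V) (⟨U', -W'⟩ : Q K f)) =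
          Ideal.Quotient.mk (Ideal.span {A'}) (2 * U') := by
        rw [Ideal.Quotient.eq, Ideal.mem_span_singleton]
        have h8 : ph (-V) (⟨U', -W'⟩ : Q K f) - 2 * U' = W' * (V + B') - (U' + W' * B') := by
          unfold ph
          ring
        rw [h8]
        exact dvd_sub (dvd_mul_of_dvd_right hD.dvd' _) hUW'
      rw [e1, e2, e3, e4] at h4
      have h9 : Ideal.Quotient.mk (Ideal.span {A'}) ((C (-1) * (2 * V)) ^ M) =
          Ideal.Quotient.mk (Ideal.span {A'}) (C (-1) * (2 * V)) ^ M := map_pow _ _ _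
      have h10 : Ideal.Quotient.mk (Ideal.span {A'}) ((U - V * W) ^ 2 * (2 * U') * C c) =
          Ideal.Quotient.mk (Ideal.span {A'}) (U - V * W) ^ 2 *
            Ideal.Quotient.mk (Ideal.span {A'}) (2 * U') *
              Ideal.Quotient.mk (Ideal.span {A'}) (C c) := by
        rw [map_mul _ ((U - V * W) ^ 2 * (2 * U')) (C c), map_mul _ ((U - V * W) ^ 2) (2 * U'),
          map_pow _ (U - V * W) 2]
      rw [h9, h10]
      exact h4
    have h31 : resultant A' ((C (-1) * (2 * V)) ^ M) =
        resultant A' (C (-1) * (2 * V)) ^ M := res_pow hA' _ _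
    have h32 : resultant A' ((U - V * W) ^ 2 * (2 * U') * C c) =
        resultant A' (U - V * W) ^ 2 * resultant A' (2 * U') * resultant A' (C c) := by
      rw [res_mul hA' ((U - V * W) ^ 2 * (2 * U')) (C c),
        res_mul hA' ((U - V * W) ^ 2) (2 * U'), res_pow hA' (U - V * W) 2]
    rw [h31, h32] at h3
    have h4 := congrArg v h3
    rw [map_pow, v_C_mul v hA' (by rw [AbsoluteValue.map_neg, map_one]), map_mul, map_mul,
      map_pow] at h4
    have h5 : v (resultant A' (C c)) = v m ^ (2 * M) := by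
      rw [resultant_C_right, hA'.coeff_natDegree, one_pow, one_mul, hG'.two, map_pow, hvc]
    rw [h5] at h4
    rw [h4]
    ring
  -- nonvanishing
  have p1 : v (resultant A (2 * B)) ^ M ≠ 0 := pow_ne_zero _ n1
  have p2 : v (resultant A' (2 * V)) ^ M ≠ 0 := pow_ne_zero _ n2
  rw [hd] at p1
  rw [b1] at p2
  have q1 : v (resultant A' (U - V * W)) ≠ 0 := right_ne_zero_of_mul p1
  have q2 : v (resultant A (2 * U)) ≠ 0 := by
    intro h
    rw [h] at p1
    simp at p1
  have q5 : v (resultant A' (2 * U')) ≠ 0 := right_ne_zero_of_mul p2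
  have hm2 : v m ^ (2 * M) ≠ 0 := pow_ne_zero _ nm0
  -- logarithms
  have l1 := congrArg Real.log hd
  rw [Real.log_pow, Real.log_mul (mul_ne_zero hm2 (pow_ne_zero _ q2)) q1,
    Real.log_mul hm2 (pow_ne_zero _ q2), Real.log_pow, Real.log_pow] at l1
  have l2 := congrArg Real.log b1
  rw [Real.log_pow, Real.log_mul (mul_ne_zero hm2 (pow_ne_zero _ q1)) q5,
    Real.log_mul hm2 (pow_ne_zero _ q1), Real.log_pow, Real.log_pow] at l2
  have hMR0 : (M : ℝ) ≠ 0 := Nat.cast_ne_zero.2 hM0
  unfold Lv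
  rw [a1, a2, map_pow, map_pow, Real.log_pow, Real.log_pow]
  push_cast at l1 l2 ⊢
  generalize Real.log (v (resultant A (2 * B))) = x at *
  generalize Real.log (v (resultant A (2 * U))) = y at *
  generalize Real.log (v (resultant A' (U - V * W))) = z at *
  generalize Real.log (v (resultant A' (2 * V))) = x' at *
  generalize Real.log (v (resultant A' (2 * U'))) = y' at *
  generalize Real.log (v m) = μ at *
  have hy : y' = M * x' - 2 * M * μ - 2 * z := by linarith
  have hz : z = M * x - 2 * M * μ - 2 * y := by linarith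
  rw [hy, hz]
  field_simp
  ring

end Pool.Agent.KDS.H5
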